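import Pool.Agent.P.MP_8fd369_lc.Line

set_option autoImplicit false

namespace Pool.Agent.Results.MP_8fd369_lc.AronszajnLine

/-- An Aronszajn line: uncountable, no subset of type omega one or its reverse, and no
uncountable subset isomorphic to a set of reals. -/
def IsAronszajnLine (A : Type) [LinearOrder A] : Prop :=
  Uncountable A ∧
    (∀ f : (Ordinal.omega.{0} 1).ToType → A, ¬ StrictMono f) ∧
    (∀ f : (Ordinal.omega.{0} 1).ToType → A, ¬ StrictAnti f) ∧
    ∀ B : Set A, (∃ φ : B → ℝ, StrictMono φ) → B.Countable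

/-- Player II has a winning strategy in BG(X, S): a rule σ computing b n from a 0, ..., a n
that answers legally as long as Player I has played legally, and wins every legal play. -/
def PlayerTwoWins {X : Type} [LinearOrder X] (S : Set X) : Prop :=
  ∃ σ : List X → X, ∀ a b : ℕ → X, (∀ n, b n = σ ((List.range (n + 1)).map a)) →
    (∀ n, (∀ k, k < n → a k < a (k + 1) ∧ a (k + 1) < b k) →
      a n < b n ∧ ∀ m, n = m + 1 → b n < b m) ∧
    ((∀ k, a k < a (k + 1) ∧ a (k + 1) < b k) → ¬ ∃ x ∈ S, ∀ n, a n < x ∧ x < b n)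

open Pool.Agent.P.MP_8fd369_lc

theorem result :
    ∃ (A : Type) (_ : LinearOrder A), DenselyOrdered A ∧ IsAronszajnLine A ∧
      ∀ S : Set A, PlayerTwoWins S := by
  have hU : Uncountable (Ordinal.omega.{0} 1).ToType := by
    rw [← Cardinal.aleph0_lt_mk_iff, Cardinal.mk_toType, Ordinal.card_omega]
    exact Cardinal.aleph0_lt_aleph_one
  have hc : ∀ a : (Ordinal.omega.{0} 1).ToType, (Set.Iio a).Countable := by
    rw [← Cardinal.ord_aleph]
    intro a
    exact (Cardinal.countable_iff_lt_aleph_one _).mpr (Cardinal.mk_Iio_toType_ord_lt a)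
  obtain ⟨D⟩ := nonempty_data hc
  have hL : Uncountable D.Line := Data.uncountable_line
  refine ⟨D.Line, inferInstance, inferInstance, ⟨hL, Data.no_strictMono, Data.no_strictAnti,
    fun B ⟨φ, hφ⟩ => Data.real_countable B φ hφ⟩, fun S => ?_⟩
  obtain ⟨x₀⟩ : Nonempty D.Line := inferInstance
  refine ⟨fun l => (l.getLast?.getD x₀).ext1 0, fun a b hb => ?_⟩
  have hb' : ∀ n, b n = (a n).ext1 0 := by
    intro n
    rw [hb n]
    simp [List.range_succ]
  simp only [hb']
  refine ⟨fun n hn => ⟨Data.lt_ext1 _ _, ?_⟩, ?_⟩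
  · rintro m rfl
    exact Data.ext1_lt_ext1 (hn m (Nat.lt_succ_self m)).1 (hn m (Nat.lt_succ_self m)).2
  · rintro h ⟨x, -, hx⟩
    exact Data.no_limit a h x hx

end Pool.Agent.Results.MP_8fd369_lc.AronszajnLine
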